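import Mathlib

/-! Project CC: the first derivative test, change of variables, windows under a matching (S_FD, S_CV, S_MB are literal
copies of the statements of Pool.Agent.Y743.CC.Stm, so fd, cv, mb have these types by unfolding) -/

set_option autoImplicit false

open MeasureTheory Filter

namespace Pool.Agent.Y130.CC

def S_FD : Prop := ∀ (F F' : ℝ → ℝ) (A B m : ℝ), A ≤ B → 0 < m →
  (∀ t ∈ Set.Icc A B, HasDerivAt F (F' t) t) →
  (MonotoneOn F' (Set.Icc A B) ∨ AntitoneOn F' (Set.Icc A B)) →
  (∀ t ∈ Set.Icc A B, m ≤ |F' t|) →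
  |∫ t in A..B, Real.cos (F t)| ≤ 4 / m

def S_CV : Prop := ∀ (f f' : ℝ → ℝ) (A B k K : ℝ) (g : ℝ → ℝ), A ≤ B → 0 < k →
  (∀ t ∈ Set.Icc A B, HasDerivAt f (f' t) t) → (∀ t ∈ Set.Icc A B, k ≤ f' t ∧ f' t ≤ K) →
  (∀ x, 0 ≤ g x) → IntervalIntegrable g volume (f A) (f B) →
    IntervalIntegrable (fun t => g (f t)) volume A B ∧
    k * (∫ t in A..B, g (f t)) ≤ ∫ x in (f A)..(f B), g x ∧
    ∫ x in (f A)..(f B), g x ≤ K * ∫ t in A..B, g (f t)

def S_MB : Prop := ∀ (S : Finset ℕ) (g : ℕ → ℝ) (σ : ℕ → ℕ) (f : ℝ → ℝ) (A B h η κ : ℝ),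
  A ≤ B → 0 ≤ h → 0 ≤ η → 0 ≤ κ → κ ≤ 1 / 2 →
  (∀ n ∈ S, ∀ t ∈ Set.Icc A B, t ≤ g n → g n ≤ t + h →
    (1 - κ) * (g n - t) ≤ f (g n) - f t ∧ f (g n) - f t ≤ (1 + κ) * (g n - t)) →
  ∃ w : ℝ → ℝ, IntervalIntegrable w volume A B ∧ (∀ t, 0 ≤ w t) ∧
    (∀ t ∈ Set.Icc A B, ((S.filter (fun n => (t < g n ∧ g n ≤ t + h) ∧
      ¬ (f t < g (σ n) ∧ g (σ n) ≤ f t + h))).card : ℝ) ≤ w t) ∧
    ∫ t in A..B, w t ≤ (3 * η + κ * h) * S.card +
      h * ((S.filter (fun n => η < |g (σ n) - f (g n)|)).card : ℝ)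

/-- the integral of the indicator of an interval -/
theorem ind_int (A B a b : ℝ) (hAB : A ≤ B) (hab : a ≤ b) :
    IntervalIntegrable (Set.indicator (Set.Icc a b) (1 : ℝ → ℝ)) volume A B ∧
      ∫ t in A..B, Set.indicator (Set.Icc a b) (1 : ℝ → ℝ) t ≤ b - a := by
  have h1 : Integrable (Set.indicator (Set.Icc a b) (1 : ℝ → ℝ)) volume := by
    rw [integrable_indicator_iff measurableSet_Icc]
    exact integrableOn_const (by rw [Real.volume_Icc]; exact ENNReal.ofReal_ne_top)
  refine ⟨h1.intervalIntegrable, ?_⟩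
  rw [intervalIntegral.integral_of_le hAB]
  calc ∫ t in Set.Ioc A B, Set.indicator (Set.Icc a b) (1 : ℝ → ℝ) t
      ≤ ∫ t, Set.indicator (Set.Icc a b) (1 : ℝ → ℝ) t := by
        refine setIntegral_le_integral h1 (Eventually.of_forall fun t => ?_)
        exact Set.indicator_nonneg (fun _ _ => zero_le_one) t
    _ = b - a := by
        rw [integral_indicator measurableSet_Icc]
        simp only [Pi.one_apply, integral_const, MeasurableSet.univ, measureReal_restrict_apply, Set.univ_inter,
          smul_eq_mul, mul_one]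
        rw [measureReal_def, Real.volume_Icc, ENNReal.toReal_ofReal (by linarith)]

theorem mb : S_MB := by
  intro S g σ f A B h η κ hAB hh hη hκ hκ2 hf
  classical
  let P : ℕ → Prop := fun n => η < |g (σ n) - f (g n)|
  let w1 : ℕ → ℝ → ℝ := fun n t => if P n then Set.indicator (Set.Icc (g n - h) (g n)) (1 : ℝ → ℝ) t else
    Set.indicator (Set.Icc (g n - 2 * η) (g n)) (1 : ℝ → ℝ) t +
      Set.indicator (Set.Icc (g n - h) (g n - h + (η + κ * h))) (1 : ℝ → ℝ) t
  have hκh : 0 ≤ κ * h := mul_nonneg hκ hh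
  have hi : ∀ n, IntervalIntegrable (w1 n) volume A B ∧
      ∫ t in A..B, w1 n t ≤ (3 * η + κ * h) + (if P n then h else 0) := by
    intro n
    by_cases hP : P n
    · have e : w1 n = Set.indicator (Set.Icc (g n - h) (g n)) (1 : ℝ → ℝ) := by
        funext t
        exact if_pos hP
      rw [e, if_pos hP]
      obtain ⟨h1, h2⟩ := ind_int A B (g n - h) (g n) hAB (by linarith)
      refine ⟨h1, h2.trans ?_⟩
      linarith
    · have e : w1 n = fun t => Set.indicator (Set.Icc (g n - 2 * η) (g n)) (1 : ℝ → ℝ) t +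
          Set.indicator (Set.Icc (g n - h) (g n - h + (η + κ * h))) (1 : ℝ → ℝ) t := by
        funext t
        exact if_neg hP
      rw [e, if_neg hP]
      obtain ⟨h1, h2⟩ := ind_int A B (g n - 2 * η) (g n) hAB (by linarith)
      obtain ⟨h3, h4⟩ := ind_int A B (g n - h) (g n - h + (η + κ * h)) hAB (by linarith)
      refine ⟨h1.add h3, ?_⟩
      rw [intervalIntegral.integral_add h1 h3]
      linarith
  have hnn : ∀ n t, 0 ≤ w1 n t := by
    intro n t
    show 0 ≤ ite _ _ _
    split_ifs
    · exact Set.indicator_nonneg (fun _ _ => zero_le_one) t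
    · exact add_nonneg (Set.indicator_nonneg (fun _ _ => zero_le_one) t) (Set.indicator_nonneg (fun _ _ => zero_le_one) t)
  refine ⟨fun t => ∑ n ∈ S, w1 n t, ?_, fun t => Finset.sum_nonneg fun n _ => hnn n t, ?_, ?_⟩
  · have hs := IntervalIntegrable.sum (μ := volume) (a := A) (b := B) S (f := w1) fun n _ => (hi n).1
    have he : (∑ n ∈ S, w1 n) = fun t => ∑ n ∈ S, w1 n t := by
      funext t
      exact Finset.sum_apply t S w1
    rwa [he] at hs
  · intro t ht
    rw [Finset.card_filter]
    push_cast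
    refine Finset.sum_le_sum fun n hn => ?_
    split_ifs with hc
    · obtain ⟨⟨c1, c2⟩, c3⟩ := hc
      show (1 : ℝ) ≤ ite _ _ _
      split_ifs with hP
      · rw [Set.indicator_of_mem]
        · rfl
        · exact ⟨by linarith, c1.le⟩
      · have hP' : |g (σ n) - f (g n)| ≤ η := not_lt.1 hP
        rw [abs_le] at hP'
        obtain ⟨d1, d2⟩ := hf n hn t ht c1.le c2
        have hκt : κ * (g n - t) ≤ κ * h := mul_le_mul_of_nonneg_left (by linarith) hκ
        by_cases c4 : g (σ n) ≤ f t
        · have hm : t ∈ Set.Icc (g n - 2 * η) (g n) := by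
            refine ⟨?_, c1.le⟩
            have : (1 / 2) * (g n - t) ≤ (1 - κ) * (g n - t) :=
              mul_le_mul_of_nonneg_right (by linarith) (by linarith)
            linarith [hP'.1]
          rw [Set.indicator_of_mem hm]
          have := Set.indicator_nonneg (s := Set.Icc (g n - h) (g n - h + (η + κ * h))) (f := (1 : ℝ → ℝ))
            (fun _ _ => zero_le_one) t
          simp only [Pi.one_apply]
          linarith
        · have c5 : f t + h < g (σ n) := by
            by_contra c6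
            exact c3 ⟨not_le.1 c4, not_lt.1 c6⟩
          have hm : t ∈ Set.Icc (g n - h) (g n - h + (η + κ * h)) := by
            refine ⟨by linarith, ?_⟩
            nlinarith [hP'.2]
          rw [Set.indicator_of_mem hm]
          have := Set.indicator_nonneg (s := Set.Icc (g n - 2 * η) (g n)) (f := (1 : ℝ → ℝ))
            (fun _ _ => zero_le_one) t
          simp only [Pi.one_apply]
          linarith
    · exact hnn n t
  · rw [intervalIntegral.integral_finsetSum (fun n _ => (hi n).1)]
    calc ∑ n ∈ S, ∫ t in A..B, w1 n t ≤ ∑ n ∈ S, ((3 * η + κ * h) + (if P n then h else 0)) :=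
          Finset.sum_le_sum fun n _ => (hi n).2
      _ = _ := by
          rw [Finset.sum_add_distrib, Finset.sum_const, nsmul_eq_mul, Finset.sum_ite, Finset.sum_const_zero, add_zero,
            Finset.sum_const, nsmul_eq_mul]
          ring

theorem cv : S_CV := by
  intro f f' A B k K g hAB hk hd hb hg0 hgi
  have hmono : StrictMonoOn f (Set.Icc A B) := by
    refine strictMonoOn_of_deriv_pos (convex_Icc A B) (fun t ht => (hd t ht).continuousAt.continuousWithinAt) ?_
    intro t ht
    rw [interior_Icc] at ht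
    have ht' := Set.Ioo_subset_Icc_self ht
    rw [(hd t ht').deriv]
    exact hk.trans_le (hb t ht').1
  have hfAB : f A ≤ f B := hmono.monotoneOn (Set.left_mem_Icc.2 hAB) (Set.right_mem_Icc.2 hAB) hAB
  have himg : f '' Set.Icc A B = Set.Icc (f A) (f B) := by
    apply Set.Subset.antisymm
    · rintro _ ⟨t, ht, rfl⟩
      exact ⟨hmono.monotoneOn (Set.left_mem_Icc.2 hAB) ht ht.1, hmono.monotoneOn ht (Set.right_mem_Icc.2 hAB) ht.2⟩
    · exact intermediate_value_Icc hAB (fun t ht => (hd t ht).continuousAt.continuousWithinAt)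
  have hgi' : IntegrableOn g (Set.Icc (f A) (f B)) volume := (intervalIntegrable_iff_integrableOn_Icc_of_le hfAB).1 hgi
  rw [← himg] at hgi'
  have hdw : ∀ t ∈ Set.Icc A B, HasDerivWithinAt f (f' t) (Set.Icc A B) t := fun t ht => (hd t ht).hasDerivWithinAt
  have h1 := (integrableOn_image_iff_integrableOn_abs_deriv_smul measurableSet_Icc hdw hmono.injOn g).1 hgi'
  have h2 := integral_image_eq_integral_abs_deriv_smul measurableSet_Icc hdw hmono.injOn g
  have hI : IntegrableOn (fun t => g (f t)) (Set.Icc A B) volume := by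
    have hm : AEStronglyMeasurable (fun t => (|f' t|)⁻¹) (volume.restrict (Set.Icc A B)) := by
      have : AEStronglyMeasurable (fun t => (|deriv f t|)⁻¹) (volume.restrict (Set.Icc A B)) :=
        ((measurable_deriv f).abs.inv).aestronglyMeasurable
      refine this.congr ?_
      rw [EventuallyEq, ae_restrict_iff' measurableSet_Icc]
      refine Eventually.of_forall fun t ht => ?_
      rw [(hd t ht).deriv]
    have h3 : IntegrableOn (fun t => (|f' t|)⁻¹ * (|f' t| • g (f t))) (Set.Icc A B) volume := by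
      refine Integrable.bdd_mul (c := k⁻¹) h1 hm ?_
      rw [ae_restrict_iff' measurableSet_Icc]
      refine Eventually.of_forall fun t ht => ?_
      have h4 : k ≤ |f' t| := (hb t ht).1.trans (le_abs_self _)
      rw [norm_inv, Real.norm_eq_abs, abs_abs]
      exact inv_anti₀ hk h4
    refine h3.congr_fun (fun t ht => ?_) measurableSet_Icc
    have h4 : |f' t| ≠ 0 := by
      have := (hb t ht).1.trans (le_abs_self (f' t))
      intro h5
      rw [h5] at this
      linarith
    simp only [smul_eq_mul]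
    rw [← mul_assoc, inv_mul_cancel₀ h4, one_mul]
  refine ⟨(intervalIntegrable_iff_integrableOn_Icc_of_le hAB).2 hI, ?_, ?_⟩
  · rw [intervalIntegral.integral_of_le hAB, intervalIntegral.integral_of_le hfAB, ← integral_Icc_eq_integral_Ioc,
      ← integral_Icc_eq_integral_Ioc, ← himg, h2, ← integral_const_mul]
    refine setIntegral_mono_on (hI.const_mul k) h1 measurableSet_Icc fun t ht => ?_
    rw [smul_eq_mul]
    exact mul_le_mul_of_nonneg_right ((hb t ht).1.trans (le_abs_self _)) (hg0 _)
  · rw [intervalIntegral.integral_of_le hAB, intervalIntegral.integral_of_le hfAB, ← integral_Icc_eq_integral_Ioc,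
      ← integral_Icc_eq_integral_Ioc, ← himg, h2, ← integral_const_mul]
    refine setIntegral_mono_on h1 (hI.const_mul K) measurableSet_Icc fun t ht => ?_
    rw [smul_eq_mul]
    refine mul_le_mul_of_nonneg_right ?_ (hg0 _)
    rw [abs_of_pos (hk.trans_le (hb t ht).1)]
    exact (hb t ht).2

theorem core (F F' : ℝ → ℝ) (A B m : ℝ) (hAB : A ≤ B) (hm : 0 < m)
    (hd : ∀ t ∈ Set.Icc A B, HasDerivAt F (F' t) t)
    (hmo : MonotoneOn F' (Set.Icc A B) ∨ AntitoneOn F' (Set.Icc A B))
    (hb : ∀ t ∈ Set.Icc A B, m ≤ F' t) : |∫ t in A..B, Real.cos (F t)| ≤ 3 / m := by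
  have hA : A ∈ Set.Icc A B := Set.left_mem_Icc.2 hAB
  have hB : B ∈ Set.Icc A B := Set.right_mem_Icc.2 hAB
  have hFc : ContinuousOn F (Set.Icc A B) := fun t ht => (hd t ht).continuousAt.continuousWithinAt
  set M := max (F' A) (F' B) with hM
  have hM0 : 0 < M := lt_of_lt_of_le hm ((hb A hA).trans (le_max_left _ _))
  have hbM : ∀ t ∈ Set.Icc A B, F' t ≤ M := by
    intro t ht
    rcases hmo with h | h
    · exact (h ht hB ht.2).trans (le_max_right _ _)
    · exact (h hA ht ht.1).trans (le_max_left _ _)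
  have hpos : ∀ t ∈ Set.Icc A B, 0 < F' t := fun t ht => hm.trans_le (hb t ht)
  have hg1 : ∀ t ∈ Set.Icc A B, (F' t)⁻¹ ≤ 1 / m := fun t ht => by
    rw [one_div]
    exact inv_anti₀ hm (hb t ht)
  have hg0 : ∀ t ∈ Set.Icc A B, 0 < (F' t)⁻¹ := fun t ht => inv_pos.2 (hpos t ht)
  -- monotonicity of the inverse
  have hgm : ∀ c ∈ Set.Icc A B, ∀ t ∈ Set.Icc A B, ∀ d ∈ Set.Icc A B, c ≤ t → t ≤ d →
      |(F' t)⁻¹ - (F' c)⁻¹| ≤ |(F' d)⁻¹ - (F' c)⁻¹| := by
    intro c hc t ht d hdd h1 h2
    rcases hmo with h | h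
    · have e1 := inv_anti₀ (hpos c hc) (h hc ht h1)
      have e2 := inv_anti₀ (hpos t ht) (h ht hdd h2)
      rw [abs_of_nonpos (by linarith), abs_of_nonpos (by linarith)]
      linarith
    · have e1 := inv_anti₀ (hpos t ht) (h hc ht h1)
      have e2 := inv_anti₀ (hpos d hdd) (h ht hdd h2)
      rw [abs_of_nonneg (by linarith), abs_of_nonneg (by linarith)]
      linarith
  have hint : ∀ c d, c ∈ Set.Icc A B → d ∈ Set.Icc A B → c ≤ d → IntervalIntegrable F' volume c d := by
    intro c d hc hdd hcd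
    have hsub : Set.uIcc c d ⊆ Set.Icc A B := by
      rw [Set.uIcc_of_le hcd]
      exact Set.Icc_subset_Icc hc.1 hdd.2
    rcases hmo with h | h
    · exact (h.mono hsub).intervalIntegrable
    · exact (h.mono hsub).intervalIntegrable
  have hpiece : ∀ c d, c ∈ Set.Icc A B → d ∈ Set.Icc A B → c ≤ d →
      |(∫ t in c..d, Real.cos (F t)) - (F' c)⁻¹ * (Real.sin (F d) - Real.sin (F c))| ≤
        |(F' d)⁻¹ - (F' c)⁻¹| * M * (d - c) := by
    intro c d hc hdd hcd
    have hsub : Set.uIcc c d ⊆ Set.Icc A B := by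
      rw [Set.uIcc_of_le hcd]
      exact Set.Icc_subset_Icc hc.1 hdd.2
    have hcc : ContinuousOn (fun t => Real.cos (F t)) (Set.uIcc c d) :=
      Real.continuous_cos.comp_continuousOn (hFc.mono hsub)
    have hk : IntervalIntegrable (fun t => F' t * Real.cos (F t)) volume c d :=
      (hint c d hc hdd hcd).mul_continuousOn hcc
    have hk2 : ∫ t in c..d, F' t * Real.cos (F t) = Real.sin (F d) - Real.sin (F c) := by
      refine intervalIntegral.integral_eq_sub_of_hasDerivAt (f := fun t => Real.sin (F t)) (fun t ht => ?_) hk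
      have := (hd t (hsub ht)).sin
      rwa [mul_comm] at this
    rw [← hk2, ← intervalIntegral.integral_const_mul, ← intervalIntegral.integral_sub hcc.intervalIntegrable (hk.const_mul _)]
    have := intervalIntegral.norm_integral_le_of_norm_le_const (a := c) (b := d)
      (f := fun t => Real.cos (F t) - (F' c)⁻¹ * (F' t * Real.cos (F t))) (C := |(F' d)⁻¹ - (F' c)⁻¹| * M) (by
        intro t ht
        rw [Set.uIoc_of_le hcd] at ht
        have ht' : t ∈ Set.Icc A B := ⟨hc.1.trans ht.1.le, ht.2.trans hdd.2⟩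
        have hne : F' t ≠ 0 := (hpos t ht').ne'
        have e : Real.cos (F t) - (F' c)⁻¹ * (F' t * Real.cos (F t)) = ((F' t)⁻¹ - (F' c)⁻¹) * (F' t * Real.cos (F t)) := by
          rw [sub_mul, ← mul_assoc (F' t)⁻¹, inv_mul_cancel₀ hne, one_mul]
        rw [e, norm_mul, Real.norm_eq_abs, Real.norm_eq_abs]
        refine mul_le_mul (hgm c hc t ht' d hdd ht.1.le ht.2) ?_ (abs_nonneg _) (abs_nonneg _)
        rw [abs_mul]
        calc |F' t| * |Real.cos (F t)| ≤ |F' t| * 1 := mul_le_mul_of_nonneg_left (Real.abs_cos_le_one _) (abs_nonneg _)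
          _ = F' t := by rw [mul_one, abs_of_pos (hpos t ht')]
          _ ≤ M := hbM t ht')
    rwa [Real.norm_eq_abs, abs_of_nonneg (by linarith : 0 ≤ d - c)] at this
  -- partitions
  have hN : ∀ N : ℕ, 0 < N → |∫ t in A..B, Real.cos (F t)| ≤ 3 / m + (1 / m * M * (B - A)) / N := by
    intro N hN
    have hNr : (0 : ℝ) < N := Nat.cast_pos.2 hN
    let τ : ℕ → ℝ := fun i => A + i * ((B - A) / N)
    have hstep : 0 ≤ (B - A) / N := div_nonneg (by linarith) hNr.le
    have hτ0 : τ 0 = A := by
      show A + ((0 : ℕ) : ℝ) * _ = A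
      rw [Nat.cast_zero, zero_mul, add_zero]
    have hτN : τ N = B := by
      show A + (N : ℝ) * ((B - A) / N) = B
      rw [mul_div_cancel₀ _ hNr.ne']
      ring
    have hτs : ∀ i, τ (i + 1) - τ i = (B - A) / N := by
      intro i
      show A + ((i + 1 : ℕ) : ℝ) * _ - (A + (i : ℝ) * _) = _
      push_cast
      ring
    have hτle : ∀ i, τ i ≤ τ (i + 1) := fun i => by linarith [hτs i]
    have hτmono : Monotone τ := monotone_nat_of_le_succ hτle
    have hτI : ∀ i, i ≤ N → τ i ∈ Set.Icc A B := fun i hi => ⟨hτ0 ▸ hτmono (Nat.zero_le i), hτN ▸ hτmono hi⟩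
    have hcont : ContinuousOn (fun t => Real.cos (F t)) (Set.Icc A B) := Real.continuous_cos.comp_continuousOn hFc
    have hsum := intervalIntegral.sum_integral_adjacent_intervals (μ := volume) (f := fun t => Real.cos (F t)) (a := τ) (n := N)
      (fun k hk => by
        refine (hcont.mono ?_).intervalIntegrable
        rw [Set.uIcc_of_le (hτle k)]
        exact Set.Icc_subset_Icc (hτI k hk.le).1 (hτI (k + 1) hk).2)
    rw [hτ0, hτN] at hsum
    -- total variation
    have hvar : ∑ i ∈ Finset.range N, |(F' (τ (i + 1)))⁻¹ - (F' (τ i))⁻¹| ≤ 1 / m := by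
      rcases hmo with h | h
      · have : ∀ i ∈ Finset.range N, |(F' (τ (i + 1)))⁻¹ - (F' (τ i))⁻¹| =
            -((F' (τ (i + 1)))⁻¹ - (F' (τ i))⁻¹) := by
          intro i hi
          rw [Finset.mem_range] at hi
          refine abs_of_nonpos ?_
          have := inv_anti₀ (hpos _ (hτI i hi.le)) (h (hτI i hi.le) (hτI (i + 1) hi) (hτle i))
          linarith
        rw [Finset.sum_congr rfl this, Finset.sum_neg_distrib, Finset.sum_range_sub (fun i => (F' (τ i))⁻¹)]
        have e1 := hg1 _ (hτI 0 (Nat.zero_le N))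
        have e2 := hg0 _ (hτI N le_rfl)
        linarith
      · have : ∀ i ∈ Finset.range N, |(F' (τ (i + 1)))⁻¹ - (F' (τ i))⁻¹| =
            ((F' (τ (i + 1)))⁻¹ - (F' (τ i))⁻¹) := by
          intro i hi
          rw [Finset.mem_range] at hi
          refine abs_of_nonneg ?_
          have := inv_anti₀ (hpos _ (hτI (i + 1) hi)) (h (hτI i hi.le) (hτI (i + 1) hi) (hτle i))
          linarith
        rw [Finset.sum_congr rfl this, Finset.sum_range_sub (fun i => (F' (τ i))⁻¹)]
        have e1 := hg1 _ (hτI N le_rfl)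
        have e2 := hg0 _ (hτI 0 (Nat.zero_le N))
        linarith
    have habel : ∀ (g K : ℕ → ℝ) (n : ℕ), ∑ i ∈ Finset.range n, g i * (K (i + 1) - K i) =
        g n * K n - g 0 * K 0 - ∑ i ∈ Finset.range n, (g (i + 1) - g i) * K (i + 1) := by
      intro g K n
      induction n with
      | zero => simp
      | succ n ih =>
        rw [Finset.sum_range_succ, Finset.sum_range_succ, ih]
        ring
    have hmain : |∑ i ∈ Finset.range N, (F' (τ i))⁻¹ * (Real.sin (F (τ (i + 1))) - Real.sin (F (τ i)))| ≤ 3 / m := by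
      rw [habel (fun i => (F' (τ i))⁻¹) (fun i => Real.sin (F (τ i))) N]
      have hp : ∀ i, i ≤ N → |(F' (τ i))⁻¹ * Real.sin (F (τ i))| ≤ 1 / m := by
        intro i hi
        rw [abs_mul, abs_of_pos (hg0 _ (hτI i hi))]
        calc (F' (τ i))⁻¹ * |Real.sin (F (τ i))| ≤ (F' (τ i))⁻¹ * 1 :=
              mul_le_mul_of_nonneg_left (Real.abs_sin_le_one _) (hg0 _ (hτI i hi)).le
          _ ≤ 1 / m := by
              rw [mul_one]
              exact hg1 _ (hτI i hi)
      have hs : |∑ i ∈ Finset.range N, ((F' (τ (i + 1)))⁻¹ - (F' (τ i))⁻¹) * Real.sin (F (τ (i + 1)))| ≤ 1 / m := by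
        refine (Finset.abs_sum_le_sum_abs _ _).trans (le_trans ?_ hvar)
        refine Finset.sum_le_sum fun i _ => ?_
        rw [abs_mul]
        calc _ ≤ |(F' (τ (i + 1)))⁻¹ - (F' (τ i))⁻¹| * 1 :=
              mul_le_mul_of_nonneg_left (Real.abs_sin_le_one _) (abs_nonneg _)
          _ = _ := mul_one _
      have h1 := hp N le_rfl
      have h2 := hp 0 (Nat.zero_le N)
      rw [abs_le] at h1 h2 hs ⊢
      have h3 : 3 / m = 1 / m + 1 / m + 1 / m := by ring
      rw [h3]
      constructor
      · linarith [h1.1, h2.2, hs.2]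
      · linarith [h1.2, h2.1, hs.1]
    have herr : |(∫ t in A..B, Real.cos (F t)) -
        ∑ i ∈ Finset.range N, (F' (τ i))⁻¹ * (Real.sin (F (τ (i + 1))) - Real.sin (F (τ i)))| ≤ (1 / m * M * (B - A)) / N := by
      rw [← hsum, ← Finset.sum_sub_distrib]
      calc _ ≤ ∑ i ∈ Finset.range N, |(F' (τ (i + 1)))⁻¹ - (F' (τ i))⁻¹| * (M * ((B - A) / N)) := by
            refine (Finset.abs_sum_le_sum_abs _ _).trans (Finset.sum_le_sum fun i hi => ?_)
            rw [Finset.mem_range] at hi
            have := hpiece _ _ (hτI i hi.le) (hτI (i + 1) hi) (hτle i)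
            rwa [hτs, mul_assoc] at this
        _ ≤ 1 / m * (M * ((B - A) / N)) := by
            rw [← Finset.sum_mul]
            exact mul_le_mul_of_nonneg_right hvar (mul_nonneg hM0.le hstep)
        _ = _ := by ring
    rw [abs_le] at hmain herr ⊢
    constructor
    · linarith [hmain.1, herr.1]
    · linarith [hmain.2, herr.2]
  have ht : Tendsto (fun N : ℕ => 3 / m + (1 / m * M * (B - A)) / (N : ℝ)) atTop (nhds (3 / m + 0)) :=
    tendsto_const_nhds.add (tendsto_const_div_atTop_nhds_zero_nat _)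
  rw [add_zero] at ht
  refine ge_of_tendsto ht ?_
  filter_upwards [eventually_gt_atTop 0] with N hN'
  exact hN N hN'

theorem fd : S_FD := by
  intro F F' A B m hAB hm hd hmo hb
  have h34 : 3 / m ≤ 4 / m := div_le_div_of_nonneg_right (by norm_num) hm.le
  have hne : ∀ t ∈ Set.Icc A B, F' t ≠ 0 := by
    intro t ht h0
    have := hb t ht
    rw [h0, abs_zero] at this
    linarith
  rcases hasDerivWithinAt_forall_lt_or_forall_gt_of_forall_ne (convex_Icc A B)
    (fun t ht => (hd t ht).hasDerivWithinAt) hne with h | h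
  · have := core (fun t => -F t) (fun t => -F' t) A B m hAB hm (fun t ht => (hd t ht).neg)
      (by
        rcases hmo with h1 | h1
        · right
          intro x hx y hy hxy
          exact neg_le_neg (h1 hx hy hxy)
        · left
          intro x hx y hy hxy
          exact neg_le_neg (h1 hx hy hxy))
      (fun t ht => by
        have := hb t ht
        rwa [abs_of_neg (h t ht)] at this)
    simp only [Real.cos_neg] at this
    exact this.trans h34
  · refine (core F F' A B m hAB hm hd hmo (fun t ht => ?_)).trans h34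
    have := hb t ht
    rwa [abs_of_pos (h t ht)] at this

end Pool.Agent.Y130.CC
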